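import Pool.Agent.Q29.TE.Stm2

/-!
Project TE of helper29, job TE-IDX: the degree of the field of a subgroup of `Gal E` is its index.
-/

set_option autoImplicit false

namespace Pool.Agent.Q177.TE

open Module NumberField Pool.Agent.TH170.MF

theorem gal_inv_smul {E : Type} [Field E] (γ : Gal E) (σ : ℂ ≃+* ℂ)
    (h : ∀ φ : E →+* ℂ, γ • φ = (σ : ℂ →+* ℂ).comp φ) (ψ : E →+* ℂ) :
    γ⁻¹ • ψ = (σ.symm : ℂ →+* ℂ).comp ψ := by
  rw [inv_smul_eq_iff, h]
  ext x
  exact (σ.apply_symm_apply (ψ x)).symm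

theorem t_IDX : Pool.Agent.Q29.TE.S_IDX := by
  intro E _ _ F φ₀ U hU
  -- the restriction of the conjugates to `F`
  let f : Gal E → (F →+* ℂ) := fun γ => (γ • φ₀).comp (algebraMap F E)
  have hf : ∀ γ γ' : Gal E, f γ = f γ' ↔ γ⁻¹ * γ' ∈ U := by
    intro γ γ'
    obtain ⟨σ, hσ⟩ := gal_smul E γ
    rw [hU]
    have h1 : ∀ x : E, ((γ⁻¹ * γ') • φ₀) x = σ.symm ((γ' • φ₀) x) := by
      intro x
      rw [mul_smul, gal_inv_smul γ σ hσ]
      rfl
    have h2 : ∀ x : E, (γ • φ₀) x = σ (φ₀ x) := by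
      intro x
      rw [hσ]
      rfl
    constructor
    · intro h x hx
      have h3 : (γ • φ₀) x = (γ' • φ₀) x := RingHom.congr_fun h ⟨x, hx⟩
      rw [h1, ← h3, h2, σ.symm_apply_apply]
    · intro h
      refine RingHom.ext fun x => ?_
      have h3 := h x x.2
      rw [h1] at h3
      change (γ • φ₀) (x : E) = (γ' • φ₀) (x : E)
      rw [h2, ← h3, σ.apply_symm_apply]
  have hsurj : ∀ ψ : F →+* ℂ, ∃ γ : Gal E, f γ = ψ := by
    intro ψ
    letI : Algebra F ℂ := ψ.toAlgebra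
    let ψ' : E →ₐ[F] ℂ := IsAlgClosed.lift
    obtain ⟨γ, hγ⟩ := MulAction.exists_smul_eq (Gal E) φ₀ (ψ' : E →+* ℂ)
    refine ⟨γ, ?_⟩
    refine RingHom.ext fun x => ?_
    change (γ • φ₀) (algebraMap F E x) = ψ x
    rw [hγ]
    exact ψ'.commutes x
  have hcard : Nat.card (Gal E ⧸ U) = Nat.card (F →+* ℂ) := by
    refine Nat.card_eq_of_bijective (Quotient.lift f (fun γ γ' h => ?_)) ⟨?_, ?_⟩
    · exact (hf γ γ').2 (QuotientGroup.leftRel_apply.1 h)
    · intro a b
      induction a using Quotient.inductionOn with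
      | h a =>
        induction b using Quotient.inductionOn with
        | h b =>
          intro h
          exact Quotient.sound (QuotientGroup.leftRel_apply.2 ((hf a b).1 h))
    · intro ψ
      obtain ⟨γ, hγ⟩ := hsurj ψ
      exact ⟨Quotient.mk _ γ, hγ⟩
  rw [Subgroup.index, hcard, Nat.card_eq_fintype_card, Embeddings.card]

end Pool.Agent.Q177.TE
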